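import Pool.Agent.H31.ND.Var
import Pool.Agent.H31.ND.Inf

/-!
# Nef line bundles whose Iitaka dimension is the numerical dimension minus one

`Var` and `Num` are the structures of the file `Pool/Agent/H31/ND/Var`, `Last` (with `Expo`, `Cyclic`, `Nbd`,
`Tower`) is the one of `Pool/Agent/H31/ND/Inf`.
-/

namespace Pool.Agent.H35.OP

open Pool.Agent.H31.ND

open scoped BigOperators

/-! ## The minimal model program on a fibre -/

/-- A run of the minimal model program. `F` is a projective manifold of dimension `n ≥ 2`,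
`G = ∑ m_j F_j` is a nonzero nef effective divisor on `F`, `m_j > 0`, `G^2` is numerically trivial, the
support `S = ∑ F_j` of `G` is connected and has simple normal crossings, and there is a rational
`n`-form on `F` with the divisor `∑ k_j F_j + K'`, where `k_j ≥ 0` and `K'` is effective and disjoint
from `S`. `c > 0` is the minimum of the numbers `(k_j + 1) / m_j`, so `K + S = c G + E + K'` with
`E = ∑ e_j F_j`, `e_j = k_j + 1 - c m_j ≥ 0`. `F = Y_0 ⇢ Y_1 ⇢ ...` is the program for the class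
`K + S + (2 n + 1) G` with scaling of the ample divisor `H`; `G_i`, `E_i`, `K'_i`, `H_i` are the direct
images. If the program stops at `Y_i` then `Y_(i+1) = Y_i`. -/
structure Mmp (n a : ℕ) (m k : Fin a → ℕ) (c : ℚ) where
  /-- the Picard number of `Y_i` -/
  rk : ℕ → ℕ
  /-- the numerical classes on `Y_i` -/
  Y : ∀ i, Num (rk i) (Fin a)
  /-- the class of `K'_i` -/
  Q : ∀ i, Vec (rk i)
  /-- `F_j` is not contracted on `Y_i` -/
  al : ℕ → Fin a → Prop
  /-- `G_i` is a Cartier divisor -/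
  Car : ℕ → Prop
  H : ∀ i, Vec (rk i)
  /-- the numbers of the scaling: `K + S + (2 n + 1) G + lam H` is nef on `Y_i`; zero if the program
  has stopped -/
  lam : ℕ → ℝ
  /-- the program has not stopped at `Y_i` -/
  Act : ℕ → Prop
  /-- the degree on a rational curve `C_i` which generates the ray contracted at the step `i` and
  satisfies the bound for the length -/
  d : ∀ i, Vec (rk i) → ℝ
  /-- the strict transform from `Y_(i+1)` to `Y_i` -/
  tr : ∀ i, Vec (rk (i + 1)) → Vec (rk i)

namespace Mmp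

variable {n a : ℕ} {m k : Fin a → ℕ} {c : ℚ} (R : Mmp n a m k c)

/-- the class of `G_i` -/
def G (i : ℕ) : Vec (R.rk i) := ∑ j, (m j : ℝ) • (R.Y i).cl j

/-- the class of `E_i` -/
def E (i : ℕ) : Vec (R.rk i) := ∑ j, ((k j : ℝ) + 1 - c * m j) • (R.Y i).cl j

/-- the class of `K + S = c G + E + K'` -/
def KS (i : ℕ) : Vec (R.rk i) := (c : ℝ) • R.G i + R.E i + R.Q i

/-- the class of `K + S + (2 n + 1) G` -/
def KG (i : ℕ) : Vec (R.rk i) := R.KS i + (2 * n + 1 : ℝ) • R.G i

/-- the support of `G_i` is connected: it is not the union of two parts without common points (two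
different components meet if and only if their intersection number is not zero, since `Y_i` is
`ℚ`-factorial) -/
def Conn (i : ℕ) : Prop :=
  ∀ T : Fin a → Prop, (∃ j, R.al i j ∧ T j) → (∃ j, R.al i j ∧ ¬ T j) →
    ∃ j j', R.al i j ∧ R.al i j' ∧ T j ∧ ¬ T j' ∧ (R.Y i).f ((R.Y i).cl j) ((R.Y i).cl j') ≠ 0

/-- `G_i` is nef and Cartier, with `G_i^2` numerically trivial and connected support -/
def Ok (i : ℕ) : Prop :=
  (R.Y i).Nef (R.G i) ∧ (R.Y i).f (R.G i) (R.G i) = 0 ∧ R.Car i ∧ R.Conn i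

/-- Divisors on the models `Y_i`, which are `ℚ`-factorial. -/
structure Geo : Prop where
  form : ∀ i, (R.Y i).Form
  dead : ∀ i j, ¬ R.al i j → (R.Y i).cl j = 0
  pos : ∀ i j, R.al i j → 0 < (R.Y i).f (R.Y i).A ((R.Y i).cl j)
  cl_cl : ∀ i j j', j ≠ j' → 0 ≤ (R.Y i).f ((R.Y i).cl j) ((R.Y i).cl j')
  nef_mov : ∀ i x, (R.Y i).Nef x → (R.Y i).Mov x
  /-- a divisor without fixed components has a member which does not contain `F_j` -/
  mov_cl : ∀ i x j, (R.Y i).Mov x → 0 ≤ (R.Y i).f x ((R.Y i).cl j)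
  closed : ∀ i x y, (∀ t : ℝ, 0 < t → ∃ s, 0 ≤ s ∧ s < t ∧ (R.Y i).Mov (x + s • y)) → (R.Y i).Mov x
  /-- all the contractions are trivial on `G_i`, so the support of `G_i` is the preimage of its image
  and `K'_i` does not meet it -/
  disj : ∀ i j, R.Ok i → (R.Y i).f (R.Q i) ((R.Y i).cl j) = 0

/-- The steps of the program. -/
structure Steps : Prop where
  al_zero : ∀ j, R.al 0 j
  ok_zero : R.Ok 0
  stay : ∀ i, ¬ R.Act i → R.Ok i → R.Ok (i + 1) ∧ ∀ j, R.al i j → R.al (i + 1) j
  d_add : ∀ i x y, R.d i (x + y) = R.d i x + R.d i y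
  d_mul : ∀ i (t : ℝ) x, R.d i (t • x) = t * R.d i x
  neg : ∀ i, R.Act i → R.d i (R.KG i) < 0
  /-- KAWAMATA (1991, Theorem 1), FUJINO (2011, Theorem 18.2): bound for the length of an extremal ray
  of the dlt pair `(Y_i, S_i)` (it is negative for `K + S`, because `G_i` is nef) -/
  length : ∀ i, R.Act i → R.Ok i → - (2 * n : ℝ) ≤ R.d i (R.KS i)
  int : ∀ i, R.Act i → R.Ok i → ∃ z : ℕ, R.d i (R.G i) = z
  /-- contraction theorem: if `G_i.C_i = 0` then `G_i` is the pull back of a Cartier divisor from the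
  contraction, and `G_(i+1)` is the pull back of the same divisor -/
  contr : ∀ i, R.Act i → R.d i (R.G i) = 0 → R.Ok i → R.Ok (i + 1)
  /-- if `F_j` is contracted it is covered by curves which are numerically multiples of `C_i` -/
  exc : ∀ i j, R.Act i → R.al i j → ¬ R.al (i + 1) j → ∀ u : Fin a → ℝ, (∀ j', 0 ≤ u j') →
    u j = 0 → 0 ≤ R.d i (∑ j', u j' • (R.Y i).cl j' + R.Q i)

/-- The scaling. -/
structure Scaling : Prop where
  nonneg : ∀ i, 0 ≤ R.lam i
  nef : ∀ i, (R.Y i).Nef (R.KG i + R.lam i • R.H i)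
  /-- BIRKAR, CASCINI, HACON and McKERNAN (2010, Corollary 1.4.2): a program with scaling stops if the
  numbers do not tend to zero, since `(2 n + 1) G + t H` is ample for `t > 0` -/
  lim : ∀ t : ℝ, 0 < t → ∃ i0, ∀ i, i0 ≤ i → R.lam i < t
  /-- the Picard number drops at a divisorial contraction and does not change at a flip; there is no
  Mori fibration, since the class is effective -/
  rk_le : ∀ i, R.rk (i + 1) ≤ R.rk i
  /-- the strict transform in the case of a flip, or of no change -/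
  tr_add : ∀ i x y, R.rk (i + 1) = R.rk i → R.tr i (x + y) = R.tr i x + R.tr i y
  tr_mul : ∀ i (t : ℝ) x, R.rk (i + 1) = R.rk i → R.tr i (t • x) = t • R.tr i x
  tr_cl : ∀ i j, R.rk (i + 1) = R.rk i → R.tr i ((R.Y (i + 1)).cl j) = (R.Y i).cl j
  tr_Q : ∀ i, R.rk (i + 1) = R.rk i → R.tr i (R.Q (i + 1)) = R.Q i
  tr_H : ∀ i, R.rk (i + 1) = R.rk i → R.tr i (R.H (i + 1)) = R.H i
  tr_mov : ∀ i x, R.rk (i + 1) = R.rk i → (R.Y (i + 1)).Mov x → (R.Y i).Mov (R.tr i x)

end Mmp

/-- Sections on the last model `Y'`; `h0 j` is the dimension of `H^0(F, O(j G))`, which is the one of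
`H^0(Y', O(j G'))`, because `G` and `G'` have the same pull back to a common resolution. -/
structure Growth (h0 : ℕ → ℕ) (a : ℕ) (al : Fin a → Prop) (m : Fin a → ℕ) (k : Fin a → ℤ)
    (w : Fin a → ℝ) extends Last a al m k w where
  /-- the dimensions of the space of functions on the scheme `j G'` (zero for `j = 0`) and of
  `H^1(Y', O)` -/
  fn : ℕ → ℕ
  h1 : ℕ
  /-- the exact sequence `0 → O_(j G')(-g G') → O_((j+g) G') → O_(g G') → 0`; if `O(g G')` is trivial
  on `(j + g) G'` then the first sheaf is `O_(j G')`; the restriction of `1` to `g G'` is not zero -/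
  add : ∀ j g, 0 < g → g • E.rG (j + g) E.gam = 0 →
    ∃ (i : (Fin (fn j) → ℂ) →ₗ[ℂ] (Fin (fn (j + g)) → ℂ)) (u : Fin (fn (j + g)) → ℂ),
      Function.Injective i ∧ ∀ x, i x ≠ u
  /-- the exact sequence `H^0(O) → H^0(O(j G')) → H^0(O_(j G')(j G')) → H^1(O)`, if `O(j G')` is trivial
  on `j G'` -/
  sec : ∀ j, 0 < j → j • E.rG j E.gam = 0 →
    ∃ (p : (Fin (h0 j) → ℂ) →ₗ[ℂ] (Fin (fn j) → ℂ)) (q : (Fin (fn j) → ℂ) →ₗ[ℂ] (Fin h1 → ℂ)),
      (∃ s, s ≠ 0 ∧ p s = 0) ∧ ∀ y, q y = 0 → ∃ x, p x = y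

/-- The minimal model program for `F` and `G` (see `Mmp`) and its last model `Y'`: if all components of
`G'` satisfy `k_j + 1 = c m_j`, then `K + S' = c G'` in a neighbourhood of the support `S'` of `G'`, and
`(Y', S')` is dlt. `h0 j` is the dimension of `H^0(F, O(j G))`. -/
structure Pair (n a : ℕ) (m k : Fin a → ℕ) (c : ℚ) (h0 : ℕ → ℕ) where
  R : Mmp n a m k c
  geo : R.Geo
  steps : R.Steps
  scaling : R.Scaling
  last : ∀ i, R.Ok i → (∀ j, R.al i j → (k j : ℚ) + 1 = c * m j) → (∃ j, R.al i j) →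
    Growth h0 a (R.al i) m (fun j => (k j : ℤ)) fun j => (R.Y i).f (R.G i) ((R.Y i).cl j)

/-! ## The Iitaka fibration -/

/-- A very general fibre `F` of the Iitaka fibration `f : X' → B`, see `Iit`, a projective manifold of
dimension `n ≥ 2`; `d` is the degree of `B`, `i1` and `i2` are the numbers `L . M^b . A'^(n-1)` and
`L^2 . M^b . A'^(n-2)` on `X'`. The line bundle `M = f^* H` is trivial on `F`, so `q L = M + N` is the
line bundle of the restriction `N_F = ∑ m_j F_j` of `N`, which has simple normal crossings (the `F_j` are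
the components, `m_j > 0`). The canonical divisor of `X'` is a combination of exceptional divisors with
positive coefficients, since `K_X ~ 0`; they are components of `N`; so by adjunction there is an `n`-form
on `F` with the divisor `∑ k_j F_j`, `k_j ≥ 0`. -/
structure Fibre (n q : ℕ) (i1 i2 : ℝ) where
  /-- the number of components of `N_F` -/
  a : ℕ
  m : Fin a → ℕ
  k : Fin a → ℕ
  r : ℕ
  Y : Num r (Fin a)
  /-- irreducible curves on `F` and the degree of a class on a curve -/
  Cv : Type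
  deg : Cv → Vec r → ℝ
  In : Cv → Fin a → Prop
  /-- the dimension of `H^0(F, O(∑ u_j F_j))` -/
  h0 : (Fin a → ℕ) → ℕ
  m_pos : ∀ j, 0 < m j
  form : Y.Form
  nef_iff : ∀ x, Y.Nef x ↔ ∀ C, 0 ≤ deg C x
  add : ∀ C x y, deg C (x + y) = deg C x + deg C y
  mul : ∀ C (t : ℝ) x, deg C (t • x) = t * deg C x
  not_in : ∀ C j, ¬ In C j → 0 ≤ deg C (Y.cl j)
  /-- two different components are disjoint if and only if the intersection number is zero -/
  disj : ∀ C j j', j ≠ j' → Y.f (Y.cl j) (Y.cl j') = 0 → In C j → deg C (Y.cl j') = 0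
  /-- `q L` is nef -/
  nef : Y.Nef (∑ j, (m j : ℝ) • Y.cl j)
  /-- the class of `M^b` is `d F` -/
  d : ℝ
  d_pos : 0 < d
  one : q * i1 = d * Y.f Y.A (∑ j, (m j : ℝ) • Y.cl j)
  two : (q : ℝ) ^ 2 * i2 = d * Y.f (∑ j, (m j : ℝ) • Y.cl j) (∑ j, (m j : ℝ) • Y.cl j)
  mono : ∀ u v, (∀ j, u j ≤ v j) → h0 u ≤ h0 v
  /-- IITAKA (1971); LAZARSFELD, Positivity I, Theorem 2.1.33: the Iitaka dimension of `L` on a very
  general fibre is zero -/
  iitaka : ∀ i : ℕ, 0 < i → h0 (fun j => i * m j) ≤ 1
  /-- The minimal model program for a part `G = ∑ m_(s j) F_(s j)` of `N_F`, which is nef with `G^2`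
  numerically trivial, connected and disjoint from the other components. -/
  prog : ∀ (b : ℕ) (s : Fin b → Fin a) (c : ℚ), Function.Injective s →
    (∀ j j', (∀ l, s l ≠ j') → Y.f (Y.cl (s j)) (Y.cl j') = 0) →
    (∀ T : Fin b → Prop, (∃ j, T j) → (∃ j, ¬ T j) →
      ∃ j j', T j ∧ ¬ T j' ∧ Y.f (Y.cl (s j)) (Y.cl (s j')) ≠ 0) →
    Y.Nef (∑ j, (m (s j) : ℝ) • Y.cl (s j)) →
    Y.f (∑ j, (m (s j) : ℝ) • Y.cl (s j)) (∑ j, (m (s j) : ℝ) • Y.cl (s j)) = 0 →
    (∀ j, c * m (s j) ≤ k (s j) + 1) → (∃ j, c * m (s j) = k (s j) + 1) →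
    Pair n b (fun j => m (s j)) (fun j => k (s j)) c
      fun i => h0 fun j => if ∃ l, s l = j then i * m j else 0

/-- The Iitaka dimension of `L` is at least `k`: for some `m > 0` the dimension of `H^0(X, i m L)` grows
at least like `i^k`. -/
def Kod {r : ℕ} (X : Var r) (L : X.P) (k : ℕ) : Prop :=
  ∃ m : ℕ, 0 < m ∧ ∃ t : ℝ, 0 < t ∧ ∀ i : ℕ, 0 < i → t * i ^ k ≤ X.h 0 (i • m • L)

/-- THE IITAKA FIBRATION of a nef line bundle `L` on the projective manifold `X`, `K_X ~ 0`, with a
section of some positive multiple; `top i` is the degree `L^i . A^(n - i)` for an ample `A`, and zero for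
`i > n`. Let `|m L|` define the Iitaka fibration, with the number `m` chosen such that its general fibres
are connected, and let `X' → X` be a composition of blow ups with smooth centres contained in the base
locus such that the pull back of `m L` is `M + N`, `M = f^* H` without base points,
`f : X' → B ⊆ ℙ^s` surjective of relative dimension `n - b`, and the support of `N` has simple normal
crossings and contains all exceptional divisors (HIRONAKA 1964, principalisation of the base ideal). -/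
structure Iit {r : ℕ} (X : Var r) (L : X.P) (top : ℕ → ℝ) where
  /-- the Iitaka dimension -/
  b : ℕ
  upper : ∃ C : ℝ, ∀ i : ℕ, 0 < i → (X.h 0 (i • L) : ℝ) ≤ C * i ^ b
  m : ℕ
  m_pos : 0 < m
  /-- the degree `L^i . M^j . A'^(n - i - j)` on `X'`, for an ample `A'` -/
  I : ℕ → ℕ → ℝ
  I_nonneg : ∀ i j, 0 ≤ I i j
  /-- `L`, `M`, `A'` are nef and `m L - M = N` is effective -/
  I_le : ∀ i j, i + j + 1 ≤ X.n → I i (j + 1) ≤ m * I (i + 1) j
  I_top : ∀ i, top i = 0 → I i 0 = 0
  /-- KAWAMATA (1985, Theorem 6.1): `K_X ~ 0`, so a nef and abundant line bundle is semiample -/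
  kawamata : top (b + 1) = 0 → X.Semiample L
  /-- base point free theorem (KAWAMATA, SHOKUROV) -/
  bpf : top X.n ≠ 0 → X.Semiample L
  /-- EASY ADDITION (NAKAYAMA 2004, chapter V): `M^b` is a positive multiple of the class of the general
  fibre `F` of `f`; if the degree of `L` on `F` is zero, then `L` is numerically trivial on `F`, and the
  numerical dimension of `L` is at most `dim B = b` -/
  easy : b + 1 ≤ X.n → I 1 b = 0 → top (b + 1) = 0
  fibre : b + 2 ≤ X.n → Fibre (X.n - b) m (I 1 b) (I 2 b)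

/-- The Iitaka fibrations of the nef line bundles on the projective manifold `X` of dimension `n ≥ 2`
with `K_X ~ 0`. -/
structure Fib {r : ℕ} (X : Var r) where
  /-- the degree `x^i . A^(n - i)` for an ample `A` on `X`, zero for `i > n` -/
  top : X.P → ℕ → ℝ
  top_big : ∀ x i, X.n < i → top x i = 0
  /-- if `x` is nef and `x^i` numerically trivial then so is `x^(i+1)` -/
  top_succ : ∀ x i, X.Nef x → top x i = 0 → top x (i + 1) = 0
  top_two : ∀ x, top x 2 = X.num.f (X.rl x) (X.rl x)
  iit : ∀ x, X.Nef x → (∃ m : ℕ, 0 < m ∧ X.h 0 (m • x) ≠ 0) → Iit X x (top x)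

end Pool.Agent.H35.OP
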