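import Pool.Agent.H31.ND.Defs
import Pool.Agent.H35.OP.Defs

namespace Pool.Agent.H35.OP

open Pool.Agent.H31.ND

/-- A projective manifold `X` of any dimension with `K_X ~ 0` and `H^1(X, O_X) = 0`, and the irreducible
factors `Y_i` of a finite étale covering (see `Factors`). -/
structure Fibred extends Factors where
  fib : ∀ i, Fib (fac i).X

end Pool.Agent.H35.OP
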