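import Pool.Agent.H31.ND.Num
import Pool.Agent.H35.OP.Defs

/-! The program for `(F, S)`: after finitely many steps `E = 0`. -/

namespace Pool.Agent.H35.OP

open Pool.Agent.H31.ND

open scoped BigOperators

namespace Mmp

/-- the coefficient of `F_j` in `E` -/
def e {a : ℕ} (m k : Fin a → ℕ) (c : ℚ) (j : Fin a) : ℝ := (k j : ℝ) + 1 - c * m j

section coef

variable {a : ℕ} {m k : Fin a → ℕ} {c : ℚ}

theorem e_nonneg (hc : ∀ j, c * m j ≤ k j + 1) (j : Fin a) : 0 ≤ e m k c j := by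
  have h := hc j
  have h1 : (c : ℝ) * m j ≤ k j + 1 := by exact_mod_cast h
  rw [e]
  linarith

theorem e_eq_zero {j : Fin a} : e m k c j = 0 ↔ (k j : ℚ) + 1 = c * m j := by
  rw [e]
  constructor
  · intro h
    have h1 : (k j : ℝ) + 1 = c * m j := by linarith
    exact_mod_cast h1
  · intro h
    have h1 : (k j : ℝ) + 1 = c * m j := by exact_mod_cast h
    linarith

end coef

variable {n a : ℕ} {m k : Fin a → ℕ} {c : ℚ} {R : Mmp n a m k c}

theorem E_def (i : ℕ) : R.E i = ∑ j, e m k c j • (R.Y i).cl j := rfl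

theorem d_KG (hs : R.Steps) (i : ℕ) :
    R.d i (R.KG i) = R.d i (R.KS i) + (2 * n + 1 : ℝ) * R.d i (R.G i) := by
  rw [KG, hs.d_add, hs.d_mul]

theorem d_KS (hs : R.Steps) (i : ℕ) :
    R.d i (R.KS i) = (c : ℝ) * R.d i (R.G i) + R.d i (R.E i + R.Q i) := by
  rw [KS, add_assoc, hs.d_add, hs.d_mul]

/-- every step is trivial on `G` -/
theorem d_G (hs : R.Steps) {i : ℕ} (hA : R.Act i) (hO : R.Ok i) : R.d i (R.G i) = 0 := by
  obtain ⟨z, hz⟩ := hs.int i hA hO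
  have h1 := hs.length i hA hO
  have h2 := hs.neg i hA
  rw [d_KG hs, hz] at h2
  rcases Nat.eq_zero_or_pos z with h | h
  · rw [hz, h, Nat.cast_zero]
  · exfalso
    have h3 : (1 : ℝ) ≤ (z : ℝ) := by exact_mod_cast h
    have h4 : (0 : ℝ) ≤ 2 * (n : ℝ) + 1 := by positivity
    nlinarith [mul_le_mul_of_nonneg_left h3 h4]

theorem ok (hs : R.Steps) : ∀ i, R.Ok i := by
  intro i
  induction i with
  | zero => exact hs.ok_zero
  | succ i ih =>
    by_cases hA : R.Act i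
    · exact hs.contr i hA (d_G hs hA ih) ih
    · exact (hs.stay i hA ih).1

theorem d_E (hs : R.Steps) {i : ℕ} (hA : R.Act i) : R.d i (R.E i + R.Q i) < 0 := by
  have h2 := hs.neg i hA
  rwa [d_KG hs, d_KS hs, d_G hs hA (ok hs i), mul_zero, mul_zero, zero_add, add_zero] at h2

/-- the components with `e_j = 0` are not contracted -/
theorem al_S (hc : ∀ j, c * m j ≤ k j + 1) (hs : R.Steps) : ∀ i j, e m k c j = 0 → R.al i j := by
  intro i
  induction i with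
  | zero => exact fun j _ => hs.al_zero j
  | succ i ih =>
    intro j hj
    by_cases hA : R.Act i
    · by_contra hcon
      have h := hs.exc i j hA (ih j hj) hcon (e m k c) (e_nonneg hc) hj
      exact absurd (d_E hs hA) (not_lt.2 h)
    · exact (hs.stay i hA (ok hs i)).2 j (ih j hj)

theorem rk_const (hc : R.Scaling) : ∃ i0, ∀ i, i0 ≤ i → R.rk (i + 1) = R.rk i := by
  have hne : (Set.range R.rk).Nonempty := ⟨_, 0, rfl⟩
  obtain ⟨i0, h0⟩ := Nat.sInf_mem hne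
  have hanti : Antitone R.rk := antitone_nat_of_succ_le hc.rk_le
  refine ⟨i0, fun i hi => ?_⟩
  have h1 : R.rk i ≤ R.rk i0 := hanti hi
  have h2 : R.rk (i + 1) ≤ R.rk i0 := hanti (hi.trans (Nat.le_succ i))
  have h3 : R.rk i0 ≤ R.rk i := by rw [h0]; exact Nat.sInf_le ⟨i, rfl⟩
  have h4 : R.rk i0 ≤ R.rk (i + 1) := by rw [h0]; exact Nat.sInf_le ⟨i + 1, rfl⟩
  exact (le_antisymm h2 h4).trans (le_antisymm h1 h3).symm

/-- the strict transform as a linear map -/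
def trl (hc : R.Scaling) {i : ℕ} (h : R.rk (i + 1) = R.rk i) :
    Vec (R.rk (i + 1)) →ₗ[ℝ] Vec (R.rk i) where
  toFun := R.tr i
  map_add' x y := hc.tr_add i x y h
  map_smul' t x := hc.tr_mul i t x h

theorem trl_apply (hc : R.Scaling) {i : ℕ} (h : R.rk (i + 1) = R.rk i) (x : Vec (R.rk (i + 1))) :
    trl hc h x = R.tr i x := rfl

theorem tr_KG (hc : R.Scaling) {i : ℕ} (h : R.rk (i + 1) = R.rk i) (s : ℝ) :
    R.tr i (R.KG (i + 1) + s • R.H (i + 1)) = R.KG i + s • R.H i := by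
  have hcl : ∀ j, trl hc h ((R.Y (i + 1)).cl j) = (R.Y i).cl j := fun j => hc.tr_cl i j h
  have hG : trl hc h (R.G (i + 1)) = R.G i := by
    rw [G, map_sum, G]
    exact Finset.sum_congr rfl fun j _ => by rw [map_smul, hcl]
  have hE : trl hc h (R.E (i + 1)) = R.E i := by
    rw [E, map_sum, E]
    exact Finset.sum_congr rfl fun j _ => by rw [map_smul, hcl]
  have hQ : trl hc h (R.Q (i + 1)) = R.Q i := hc.tr_Q i h
  have hH : trl hc h (R.H (i + 1)) = R.H i := hc.tr_H i h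
  rw [← trl_apply hc h, map_add, KG, KS, map_add, map_add, map_add, map_smul, map_smul, map_smul,
    hG, hE, hQ, hH, KG, KS]

theorem mov_back (hc : R.Scaling) {i0 : ℕ} (h0 : ∀ i, i0 ≤ i → R.rk (i + 1) = R.rk i) (s : ℝ) :
    ∀ k, (R.Y (i0 + k)).Mov (R.KG (i0 + k) + s • R.H (i0 + k)) →
      (R.Y i0).Mov (R.KG i0 + s • R.H i0) := by
  intro k
  induction k with
  | zero => exact fun h => h
  | succ k ih =>
    intro h
    apply ih
    have h1 := h0 (i0 + k) (Nat.le_add_right _ _)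
    rw [← tr_KG hc h1 s]
    exact hc.tr_mov _ _ h1 h

theorem mov_KG (hg : R.Geo) (hc : R.Scaling) {i0 : ℕ}
    (h0 : ∀ i, i0 ≤ i → R.rk (i + 1) = R.rk i) : (R.Y i0).Mov (R.KG i0) := by
  refine hg.closed i0 _ (R.H i0) fun t ht => ?_
  obtain ⟨i1, h1⟩ := hc.lim t ht
  refine ⟨R.lam (i0 + i1), hc.nonneg _, h1 _ (Nat.le_add_left _ _), ?_⟩
  exact mov_back hc h0 _ i1 (hg.nef_mov _ _ (hc.nef _))

/-- `G . F_j = 0` -/
theorem f_G_cl (hm : ∀ j, 0 < m j) (hg : R.Geo) {i : ℕ} (hO : R.Ok i) (j : Fin a) :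
    (R.Y i).f (R.G i) ((R.Y i).cl j) = 0 := by
  have h1 : (R.Y i).f (R.G i) (R.G i) = 0 := hO.2.1
  have h2 : ∀ j, 0 ≤ (R.Y i).f (R.G i) ((R.Y i).cl j) := fun j => (hg.form i).nef_cl _ _ hO.1
  have h3 : ∑ j, (m j : ℝ) * (R.Y i).f (R.G i) ((R.Y i).cl j) = 0 := by
    rw [← h1]
    conv_rhs => rw [show R.G i = ∑ j, (m j : ℝ) • (R.Y i).cl j from rfl]
    rw [(hg.form i).sum']
    exact Finset.sum_congr rfl fun j _ => by
      rw [(hg.form i).mul']
      rfl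
  have h4 := (Finset.sum_eq_zero_iff_of_nonneg fun j _ =>
    mul_nonneg (Nat.cast_nonneg (m j)) (h2 j)).1 h3 j (Finset.mem_univ j)
  rcases mul_eq_zero.1 h4 with h | h
  · exact absurd h (by exact_mod_cast (hm j).ne')
  · exact h

theorem G_ne (hm : ∀ j, 0 < m j) (hg : R.Geo) {i : ℕ} {j : Fin a} (hj : R.al i j) : R.G i ≠ 0 := by
  intro h
  have h1 : (R.Y i).f (R.Y i).A (R.G i) = 0 := by rw [h, (hg.form i).zero']
  have h2 : ∀ j, 0 ≤ (R.Y i).f (R.Y i).A ((R.Y i).cl j) := fun j =>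
    (hg.form i).nef_cl _ _ (hg.form i).nef_A
  rw [G, (hg.form i).sum'] at h1
  have h3 : ∑ j, (m j : ℝ) * (R.Y i).f (R.Y i).A ((R.Y i).cl j) = 0 := by
    rw [← h1]
    exact Finset.sum_congr rfl fun j _ => by rw [(hg.form i).mul']
  have h4 := (Finset.sum_eq_zero_iff_of_nonneg fun j _ =>
    mul_nonneg (Nat.cast_nonneg (m j)) (h2 j)).1 h3 j (Finset.mem_univ j)
  rcases mul_eq_zero.1 h4 with h5 | h5
  · exact absurd h5 (by exact_mod_cast (hm j).ne')
  · exact absurd h5 (hg.pos i j hj).ne'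

/-- the class `E` is a multiple of `G` on the last model -/
theorem E_eq (hm : ∀ j, 0 < m j) (hc : ∀ j, c * m j ≤ k j + 1) (hg : R.Geo) {i : ℕ} (hO : R.Ok i)
    (hne : ∃ j, R.al i j) (hM : (R.Y i).Mov (R.KG i)) : ∃ t : ℝ, R.E i = t • R.G i := by
  obtain ⟨j0, hj0⟩ := hne
  have hform := hg.form i
  have hGc := f_G_cl hm hg hO
  have h1 : ∀ j, 0 ≤ (R.Y i).f (R.E i) ((R.Y i).cl j) := by
    intro j
    have h2 := hg.mov_cl i _ j hM
    rw [KG, KS, hform.add, hform.add, hform.add, hform.mul, hform.mul, hGc j, mul_zero, mul_zero,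
      zero_add, add_zero, hg.disj i j hO, add_zero] at h2
    exact h2
  have h2 : 0 ≤ (R.Y i).f (R.E i) (R.E i) := by
    have h3 : (R.Y i).f (R.E i) (R.E i)
        = ∑ j, e m k c j * (R.Y i).f (R.E i) ((R.Y i).cl j) := by
      conv_lhs => rw [show R.E i = ∑ j, e m k c j • (R.Y i).cl j from rfl]
      rw [hform.sum']
      exact Finset.sum_congr rfl fun j _ => by
        rw [hform.mul']
        rfl
    rw [h3]
    exact Finset.sum_nonneg fun j _ => mul_nonneg (e_nonneg hc j) (h1 j)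
  have h4 : (R.Y i).f (R.G i) (R.E i) = 0 := by
    rw [E_def, hform.sum']
    exact Finset.sum_eq_zero fun j _ => by rw [hform.mul', hGc j, mul_zero]
  exact ⟨_, hform.prop hO.1 hO.2.1 (G_ne hm hg hj0) h4 h2⟩

/-- On some model `K + S = c G` in a neighbourhood of `S`. -/
theorem endpoint {n a : ℕ} {m k : Fin a → ℕ} {c : ℚ} (R : Mmp n a m k c) (hm : ∀ j, 0 < m j)
    (hle : ∀ j, c * m j ≤ k j + 1) (heq : ∃ j, c * m j = k j + 1) (hg : R.Geo) (hs : R.Steps)
    (hc : R.Scaling) :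
    ∃ i, R.Ok i ∧ (∀ j, R.al i j → (k j : ℚ) + 1 = c * m j) ∧ ∃ j, R.al i j := by
  obtain ⟨i0, h0⟩ := rk_const hc
  obtain ⟨j1, hj1⟩ := heq
  have hj1 := e_eq_zero.2 hj1.symm
  have hO := ok hs i0
  have hal := al_S hle hs i0
  obtain ⟨t, ht⟩ := E_eq hm hle hg hO ⟨j1, hal j1 hj1⟩ (mov_KG hg hc h0)
  refine ⟨i0, hO, fun j hj => ?_, j1, hal j1 hj1⟩
  rw [← e_eq_zero]
  by_contra hcon
  have hform := hg.form i0
  obtain ⟨j2, j3, h2, h3, h4, h5, h6⟩ := hO.2.2.2 (fun j => e m k c j ≠ 0) ⟨j, hj, hcon⟩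
    ⟨j1, hal j1 hj1, fun h => h hj1⟩
  have h5' : e m k c j3 = 0 := not_not.1 h5
  apply h6
  have h7 : (R.Y i0).f (R.E i0) ((R.Y i0).cl j3) = 0 := by
    rw [ht, hform.mul, f_G_cl hm hg hO, mul_zero]
  have h8 : ∀ j, 0 ≤ e m k c j * (R.Y i0).f ((R.Y i0).cl j) ((R.Y i0).cl j3) := by
    intro j
    by_cases hj' : e m k c j = 0
    · rw [hj', zero_mul]
    · refine mul_nonneg (e_nonneg hle j) ?_
      exact hg.cl_cl _ _ _ fun h => hj' (by rw [h]; exact h5')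
  have h9 : ∑ j, e m k c j * (R.Y i0).f ((R.Y i0).cl j) ((R.Y i0).cl j3) = 0 := by
    refine Eq.trans ?_ h7
    rw [E_def, hform.sum]
    exact Finset.sum_congr rfl fun j _ => by rw [hform.mul]
  have h10 := (Finset.sum_eq_zero_iff_of_nonneg fun j _ => h8 j).1 h9 j2 (Finset.mem_univ j2)
  rcases mul_eq_zero.1 h10 with h11 | h11
  · exact absurd h11 h4
  · exact h11

end Mmp

end Pool.Agent.H35.OP
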