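import Pool.Agent.H31.ND.Main
import Pool.Agent.H35.OP.Fibred
import Pool.Agent.H31.ND.Fact
import Pool.Agent.H35.OP.Prog

/-! A nef line bundle `L` with `nu(L) ≤ kappa(L) + 1` on a manifold with trivial canonical bundle is
semiample. -/

namespace Pool.Agent.H35.OP

open Pool.Agent.H31.ND

open scoped BigOperators

theorem Growth.fn_add {h0 : ℕ → ℕ} {a : ℕ} {al : Fin a → Prop} {m : Fin a → ℕ} {k : Fin a → ℤ}
    {w : Fin a → ℝ} (S : Growth h0 a al m k w) (j g : ℕ) (hg : 0 < g)
    (h : g • S.E.rG (j + g) S.E.gam = 0) : S.fn j + 1 ≤ S.fn (j + g) := by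
  obtain ⟨i, u, hi, hu⟩ := S.add j g hg h
  have h1 : LinearMap.range i ≠ ⊤ := fun h => by
    obtain ⟨x, hx⟩ := (h ▸ Submodule.mem_top : u ∈ LinearMap.range i)
    exact hu x hx
  have h2 := Submodule.finrank_lt h1
  rw [LinearMap.finrank_range_of_inj hi] at h2
  simpa using h2

theorem Growth.h0_ge {h0 : ℕ → ℕ} {a : ℕ} {al : Fin a → Prop} {m : Fin a → ℕ} {k : Fin a → ℤ}
    {w : Fin a → ℝ} (S : Growth h0 a al m k w) (j : ℕ) (hj : 0 < j)
    (h : j • S.E.rG j S.E.gam = 0) : S.fn j + 1 ≤ h0 j + S.h1 := by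
  obtain ⟨p, q, ⟨s, hs, hps⟩, hq⟩ := S.sec j hj h
  have h1 := LinearMap.finrank_range_add_finrank_ker p
  have h2 := LinearMap.finrank_range_add_finrank_ker q
  have h3 : LinearMap.ker q ≤ LinearMap.range p := fun y hy => hq y hy
  have h4 := Submodule.finrank_mono h3
  have h5 : 1 ≤ Module.finrank ℂ (LinearMap.ker p) := by
    rw [Nat.one_le_iff_ne_zero, Ne, Submodule.finrank_eq_zero]
    intro h
    have h6 : s ∈ LinearMap.ker p := hps
    rw [h] at h6
    exact hs h6
  have h6 := Submodule.finrank_le (LinearMap.range q)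
  simp only [Module.finrank_fintype_fun_eq_card, Fintype.card_fin] at h1 h2 h6
  omega

/-- the multiples of `G` have many sections -/
theorem Pair.unbounded {n a : ℕ} {m k : Fin a → ℕ} {c : ℚ} {h0 : ℕ → ℕ} (P : Pair n a m k c h0)
    (hm0 : ∀ j, 0 < m j) (hc : 0 < c) (hle : ∀ j, c * m j ≤ k j + 1) (heq : ∃ j, c * m j = k j + 1)
    (B : ℕ) : ∃ i, 0 < i ∧ B < h0 i := by
  classical
  obtain ⟨i, hok, hS, j0, hj0⟩ := P.R.endpoint hm0 hle heq P.geo P.steps P.scaling
  have S := P.last i hok hS ⟨j0, hj0⟩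
  have htor := S.gongyo fun j _ => Mmp.f_G_cl hm0 P.geo hok j
  -- the order of the covering
  let N : ℕ := ∏ j, m j
  have hN : 0 < N := Finset.prod_pos fun j _ => hm0 j
  obtain ⟨F, Q, hF, hQ, hQ'⟩ := S.ex.root_of_torsion S.E.gam htor N hN
  have hm : ∀ j, P.R.al i j → 0 < m j ∧ m j ∣ N := fun j _ =>
    ⟨hm0 j, Finset.dvd_prod_of_mem _ (Finset.mem_univ j)⟩
  let C := S.cyclic N F Q hN hF hQ
  have T := S.tower N F Q hN hF hQ (C.mu_eq hm)
  have hk : ∀ j, P.R.al i j → ((k j : ℤ) : ℚ) + 1 = c * m j := fun j hj => by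
    rw [← hS j hj]
    push_cast
    ring
  have h1 : ∀ j, 0 < j → C.g • S.E.rG j S.E.gam = 0 := fun j hj =>
    T.triv hm hN c hc hk hQ' j hj
  -- the functions on the multiples of `G`
  have h2 : ∀ q, q ≤ S.fn (q * C.g) := by
    intro q
    induction q with
    | zero => exact Nat.zero_le _
    | succ q ih =>
      have h3 := S.fn_add (q * C.g) C.g C.g_pos (h1 _ (Nat.add_pos_right _ C.g_pos))
      rw [Nat.succ_mul]
      exact (Nat.succ_le_succ ih).trans h3
  have hpos : 0 < (B + S.h1 + 1) * C.g := Nat.mul_pos (Nat.succ_pos _) C.g_pos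
  have h4 := S.h0_ge ((B + S.h1 + 1) * C.g) hpos (by rw [mul_smul, h1 _ hpos, smul_zero])
  have h5 := h2 (B + S.h1 + 1)
  exact ⟨_, hpos, by omega⟩

namespace Fibre

variable {n q : ℕ} {i1 i2 : ℝ} (F : Fibre n q i1 i2)

/-- the class of the part of `N_F` with the components in `T` -/
noncomputable def part (T : Finset (Fin F.a)) : Vec F.r := ∑ j ∈ T, (F.m j : ℝ) • F.Y.cl j

/-- the components in `T` are disjoint from the others -/
def Iso (T : Finset (Fin F.a)) : Prop := ∀ j ∈ T, ∀ j', j' ∉ T → F.Y.f (F.Y.cl j) (F.Y.cl j') = 0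

variable {F}

theorem Iso.compl {T : Finset (Fin F.a)} (h : F.Iso T) : F.Iso Tᶜ := by
  classical
  intro j hj j' hj'
  rw [F.form.symm]
  exact h j' (not_not.1 fun h1 => hj' (Finset.mem_compl.2 h1)) j (Finset.mem_compl.1 hj)

theorem deg_sum (C : F.Cv) (T : Finset (Fin F.a)) (u : Fin F.a → ℝ) :
    F.deg C (∑ j ∈ T, u j • F.Y.cl j) = ∑ j ∈ T, u j * F.deg C (F.Y.cl j) := by
  classical
  induction T using Finset.induction_on with
  | empty =>
    rw [Finset.sum_empty, Finset.sum_empty]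
    have h := F.mul C 0 0
    rwa [zero_smul, zero_mul] at h
  | insert j T hj ih => rw [Finset.sum_insert hj, Finset.sum_insert hj, F.add, F.mul, ih]

/-- a part disjoint from the others is nef -/
theorem nef_part {T : Finset (Fin F.a)} (h : F.Iso T) : F.Y.Nef (F.part T) := by
  classical
  rw [F.nef_iff]
  intro C
  by_cases h1 : ∃ j ∈ T, F.In C j
  · obtain ⟨j, hj, hC⟩ := h1
    have h2 := (F.nef_iff _).1 F.nef C
    rw [deg_sum] at h2
    rw [part, deg_sum]
    rw [Finset.sum_subset (Finset.subset_univ T)]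
    · exact h2
    · intro j' _ hj'
      rw [F.disj C j j' (fun e => hj' (e ▸ hj)) (h j hj j' hj') hC, mul_zero]
  · rw [part, deg_sum]
    refine Finset.sum_nonneg fun j hj => mul_nonneg (Nat.cast_nonneg _) (F.not_in C j fun hC => ?_)
    exact h1 ⟨j, hj, hC⟩

theorem part_add (T : Finset (Fin F.a)) :
    F.part T + F.part Tᶜ = ∑ j, (F.m j : ℝ) • F.Y.cl j := by
  classical
  exact Finset.sum_add_sum_compl T _

theorem cross {T : Finset (Fin F.a)} (h : F.Iso T) : F.Y.f (F.part T) (F.part Tᶜ) = 0 := by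
  classical
  rw [part, part, F.form.sum]
  refine Finset.sum_eq_zero fun j hj => ?_
  rw [F.form.mul, F.form.sum']
  rw [Finset.sum_eq_zero, mul_zero]
  intro j' hj'
  rw [F.form.mul', h j hj j' (Finset.mem_compl.1 hj'), mul_zero]

/-- the square of a part disjoint from the others is numerically trivial -/
theorem sq_part (h2 : i2 = 0) {T : Finset (Fin F.a)} (h : F.Iso T) :
    F.Y.f (F.part T) (F.part T) = 0 := by
  classical
  have h3 : F.Y.f (∑ j, (F.m j : ℝ) • F.Y.cl j) (∑ j, (F.m j : ℝ) • F.Y.cl j) = 0 := by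
    have h4 : F.d * F.Y.f (∑ j, (F.m j : ℝ) • F.Y.cl j) (∑ j, (F.m j : ℝ) • F.Y.cl j) = 0 := by
      rw [← F.two]
      exact mul_eq_zero_of_right _ h2
    rcases mul_eq_zero.1 h4 with h5 | h5
    · exact absurd h5 F.d_pos.ne'
    · exact h5
  rw [← part_add T, F.form.add, F.form.add', F.form.add', cross h, F.form.symm (F.part Tᶜ), cross h]
    at h3
  have h4 := F.form.nef_nef _ _ (nef_part h) (nef_part h)
  have h5 := F.form.nef_nef _ _ (nef_part h.compl) (nef_part h.compl)
  linarith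

theorem nonempty (hq : 0 < q) (h1 : i1 ≠ 0) : 0 < F.a := by
  rcases Nat.eq_zero_or_pos F.a with h | h
  · exfalso
    have h2 := F.one
    have h3 : (∑ j, (F.m j : ℝ) • F.Y.cl j) = 0 :=
      Finset.sum_eq_zero fun j _ => absurd j.2 (by omega)
    rw [h3, F.form.zero', mul_zero] at h2
    rcases mul_eq_zero.1 h2 with h4 | h4
    · have : q = 0 := by exact_mod_cast h4
      omega
    · exact h1 h4
  · exact h

/-- **Theorem.** The numerical dimension of `L` on the general fibre of the Iitaka fibration is not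
one. -/
theorem contra (F : Fibre n q i1 i2) (hq : 0 < q) (h1 : i1 ≠ 0) (h2 : i2 = 0) : False := by
  classical
  -- a connected component of the support of `N_F`
  have hne : (Finset.univ.filter fun T : Finset (Fin F.a) => T.Nonempty ∧ F.Iso T).Nonempty := by
    refine ⟨Finset.univ, ?_⟩
    rw [Finset.mem_filter]
    exact ⟨Finset.mem_univ _, ⟨⟨0, nonempty hq h1⟩, Finset.mem_univ _⟩,
      fun j _ j' hj' => absurd (Finset.mem_univ j') hj'⟩
  obtain ⟨T, hT, hmin⟩ := Finset.exists_min_image _ Finset.card hne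
  obtain ⟨-, hTne, hTiso⟩ := Finset.mem_filter.1 hT
  let s : Fin T.card → Fin F.a := T.orderEmbOfFin rfl
  have hs : Function.Injective s := (T.orderEmbOfFin rfl).injective
  have hmem : ∀ l, s l ∈ T := fun l => T.orderEmbOfFin_mem rfl l
  have hrange : ∀ j ∈ T, ∃ l, s l = j := by
    intro j hj
    have h := T.range_orderEmbOfFin rfl
    have h' : j ∈ Set.range (T.orderEmbOfFin rfl) := by
      rw [h]
      exact hj
    exact h'
  have hsum : ∀ g : Fin F.a → Vec F.r, ∑ l, g (s l) = ∑ j ∈ T, g j := by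
    intro g
    have h : Finset.univ.image s = T := by
      ext j
      rw [Finset.mem_image]
      constructor
      · rintro ⟨l, -, rfl⟩
        exact hmem l
      · intro hj
        obtain ⟨l, hl⟩ := hrange j hj
        exact ⟨l, Finset.mem_univ _, hl⟩
    conv_rhs => rw [← h]
    rw [Finset.sum_image fun x _ y _ hxy => hs hxy]
  have hpos : 0 < T.card := Finset.card_pos.2 hTne
  -- the number `c`
  obtain ⟨l0, -, hl0⟩ := Finset.exists_min_image Finset.univ
    (fun l : Fin T.card => ((F.k (s l) : ℚ) + 1) / F.m (s l)) ⟨⟨0, hpos⟩, Finset.mem_univ _⟩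
  let c : ℚ := ((F.k (s l0) : ℚ) + 1) / F.m (s l0)
  have hmq : ∀ l, (0 : ℚ) < F.m (s l) := fun l => by exact_mod_cast F.m_pos (s l)
  have hc : 0 < c := div_pos (by positivity) (hmq l0)
  have hle : ∀ l, c * F.m (s l) ≤ F.k (s l) + 1 := fun l =>
    (le_div_iff₀ (hmq l)).1 (hl0 l (Finset.mem_univ l))
  have heq : ∃ l, c * F.m (s l) = F.k (s l) + 1 := ⟨l0, div_mul_cancel₀ _ (hmq l0).ne'⟩
  have P := F.prog T.card s c hs (fun l j' hj' => hTiso _ (hmem l) j' fun hj =>
      let ⟨l', hl'⟩ := hrange j' hj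
      hj' l' hl')
    (by
      rintro U ⟨l1, hl1⟩ ⟨l2, hl2⟩
      by_contra hcon
      have hcon' : ∀ j j', U j → ¬ U j' → F.Y.f (F.Y.cl (s j)) (F.Y.cl (s j')) = 0 := by
        intro j j' h3 h4
        by_contra h5
        exact hcon ⟨j, j', h3, h4, h5⟩
      have hV : (T.filter fun x => ∃ l, U l ∧ s l = x) ∈
          Finset.univ.filter fun T : Finset (Fin F.a) => T.Nonempty ∧ F.Iso T := by
        rw [Finset.mem_filter]
        refine ⟨Finset.mem_univ _, ⟨s l1, Finset.mem_filter.2 ⟨hmem l1, l1, hl1, rfl⟩⟩, ?_⟩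
        intro x hx y hy
        obtain ⟨hx1, l, hUl, rfl⟩ := Finset.mem_filter.1 hx
        by_cases hyT : y ∈ T
        · obtain ⟨l', rfl⟩ := hrange y hyT
          refine hcon' l l' hUl fun h => hy ?_
          exact Finset.mem_filter.2 ⟨hyT, l', h, rfl⟩
        · exact hTiso _ hx1 y hyT
      have h6 := hmin _ hV
      have h7 : (T.filter fun x => ∃ l, U l ∧ s l = x) ⊂ T := by
        rw [Finset.filter_ssubset]
        refine ⟨s l2, hmem l2, ?_⟩
        rintro ⟨l, hUl, hl⟩
        exact hl2 (hs hl ▸ hUl)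
      exact absurd (Finset.card_lt_card h7) (not_lt.2 h6))
    (by rw [hsum fun j => (F.m j : ℝ) • F.Y.cl j]; exact nef_part hTiso)
    (by rw [hsum fun j => (F.m j : ℝ) • F.Y.cl j]; exact sq_part h2 hTiso) hle heq
  obtain ⟨i, hi, h3⟩ := P.unbounded (fun l => F.m_pos (s l)) hc hle heq 1
  refine absurd (h3.trans_le ((F.mono _ _ fun j => ?_).trans (F.iitaka i hi))) (lt_irrefl _)
  split_ifs
  · exact le_refl _
  · exact Nat.zero_le _

end Fibre

section

variable {r : ℕ} {X : Var r} {L : X.P}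

/-- `kappa ≥ k` and `h^0(i L) ≤ C i^b` imply `k ≤ b` -/
theorem Kod.le {k b : ℕ} (hk : Kod X L k)
    (hb : ∃ C : ℝ, ∀ i : ℕ, 0 < i → (X.h 0 (i • L) : ℝ) ≤ C * i ^ b) : k ≤ b := by
  obtain ⟨m, hm, t, ht, h1⟩ := hk
  obtain ⟨C, h2⟩ := hb
  by_contra hc
  have hc' : b < k := not_le.1 hc
  have h3 : ∀ i : ℕ, 0 < i → t * (i : ℝ) ≤ C * (m : ℝ) ^ b := by
    intro i hi
    have hi' : (0 : ℝ) < i := by exact_mod_cast hi
    have h4 := h1 i hi
    have h5 := h2 (i * m) (Nat.mul_pos hi hm)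
    rw [mul_smul] at h5
    have h6 : t * (i : ℝ) ^ k ≤ C * ((i : ℝ) * m) ^ b := by
      have h7 := h4.trans h5
      push_cast at h7
      exact h7
    have h8 : (i : ℝ) ^ (b + 1) ≤ (i : ℝ) ^ k :=
      pow_le_pow_right₀ (by exact_mod_cast hi) hc'
    have h9 : t * (i : ℝ) ^ (b + 1) ≤ C * ((i : ℝ) * m) ^ b :=
      (mul_le_mul_of_nonneg_left h8 ht.le).trans h6
    rw [mul_pow, pow_succ] at h9
    have h10 : (i : ℝ) ^ b * (t * i) ≤ (i : ℝ) ^ b * (C * (m : ℝ) ^ b) := by
      nlinarith [h9]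
    exact le_of_mul_le_mul_left h10 (pow_pos hi' b)
  obtain ⟨i, hi⟩ := exists_nat_gt (C * (m : ℝ) ^ b / t)
  have h4 := h3 (i + 1) (Nat.succ_pos i)
  rw [div_lt_iff₀ ht] at hi
  push_cast at h4
  nlinarith

theorem Kod.section {k : ℕ} (hk : Kod X L k) : ∃ m : ℕ, 0 < m ∧ X.h 0 (m • L) ≠ 0 := by
  obtain ⟨m, hm, t, ht, h1⟩ := hk
  refine ⟨m, hm, fun h => ?_⟩
  have h2 := h1 1 one_pos
  rw [one_smul, h] at h2
  simp only [Nat.cast_one, one_pow, mul_one, Nat.cast_zero] at h2
  linarith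

variable {top : ℕ → ℝ}

/-- `L^2 . M^b . A^(n-b-2) ≤ m^b L^(b+2) . A^(n-b-2)` -/
theorem Iit.vanish (F : Iit X L top) {d : ℕ} (h : top d = 0) :
    ∀ j i, i + j = d → i + j ≤ X.n → F.I i j = 0 := by
  intro j
  induction j with
  | zero =>
    intro i hi _
    rw [add_zero] at hi
    subst hi
    exact F.I_top _ h
  | succ j ih =>
    intro i hi hn
    have h1 := ih (i + 1) (by omega) (by omega)
    have h2 := F.I_le i j (by omega)
    rw [h1, mul_zero] at h2
    exact le_antisymm h2 (F.I_nonneg _ _)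

/-- the two numbers `nu ≤ kappa + 1` -/
theorem Iit.semiample (F : Iit X L top) (hbig : ∀ i, X.n < i → top i = 0)
    (h : top (F.b + 2) = 0) : X.Semiample L := by
  by_cases h1 : top (F.b + 1) = 0
  · exact F.kawamata h1
  have h2 : F.b + 1 ≤ X.n := by
    by_contra hc
    exact h1 (hbig _ (not_le.1 hc))
  rcases Nat.lt_or_ge (F.b + 1) X.n with h3 | h3
  · have h4 : F.I 2 F.b = 0 := F.vanish h F.b 2 (by omega) (by omega)
    have h5 : F.I 1 F.b ≠ 0 := fun h => h1 (F.easy h2 h)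
    exact ((F.fibre (by omega)).contra F.m_pos h5 h4).elim
  · refine F.bpf ?_
    rwa [show X.n = F.b + 1 by omega]

end

/-- **Theorem.** `X` is a projective manifold of any dimension with `K_X ~ 0`, and `x` is a nef line
bundle on `X` with `kappa(x) ≥ k ≥ nu(x) - 1`. Then `x` is semiample. -/
theorem Fib.semiample {r : ℕ} {X : Var r} (D : Fib X) (x : X.P) (hx : X.Nef x) (k : ℕ)
    (hk : Kod X x k) (h : D.top x (k + 2) = 0) : X.Semiample x := by
  have F := D.iit x hx hk.section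
  refine F.semiample (D.top_big x) ?_
  have h1 : k ≤ F.b := hk.le F.upper
  have h2 : ∀ q, D.top x (k + 2 + q) = 0 := by
    intro q
    induction q with
    | zero => exact h
    | succ q ih => exact D.top_succ x _ hx ih
  have h3 := h2 (F.b - k)
  rwa [show k + 2 + (F.b - k) = F.b + 2 by omega] at h3

/-- **Theorem.** `X` is a projective manifold of any dimension with `K_X ~ 0` and `H^1(X, O_X) = 0`, and
`x` is a nef line bundle on `X`. Let the restriction `y` of `x` to each of the factors `Y_i` be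
numerically trivial, or `nu(y) ≤ kappa(y) + 1` with `kappa(y) ≥ 0`, or `nu(y) ≤ 1` and the Euler
characteristic of one of the multiples of `y` not zero. Then `x` is semiample. -/
theorem Fibred.semiample (D : Fibred) (x : D.X.P) (hx : D.X.Nef x)
    (h : ∀ i, (D.fac i).X.c (D.res i x) = 0 ∨
      (∃ k, Kod (D.fac i).X (D.res i x) k ∧ (D.fib i).top (D.res i x) (k + 2) = 0) ∨
      ((D.fib i).top (D.res i x) 2 = 0 ∧ ∃ m : ℤ, (D.fac i).X.chi (m • D.res i x) ≠ 0)) :
    D.X.Semiample x := by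
  refine D.descent x (fun i => ?_) ?_
  · rcases h i with h | ⟨k, hk, h⟩ | ⟨h2, h⟩
    · exact (D.fac i).div.semiample_of_zero _ h
    · exact (D.fib i).semiample _ (D.nef_res x i hx) k hk h
    · refine (D.fac i).semiample _ (D.nef_res x i hx) ?_ (Or.inr h)
      rw [(D.fib i).top_two] at h2
      exact h2
  · obtain ⟨F, hF⟩ := D.flat x hx
    exact hF _ Fintype.card_pos F.torsion

end Pool.Agent.H35.OP
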